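import Pool.Agent.V5helper50.SC.Stm

/-!
# Cauchy-Schwarz for the number of sums
-/

set_option autoImplicit false

open Finset MeasureTheory

namespace Pool.Agent.V5helper55.SC

open Pool.Agent.V5helper51.MT (a cube box blk)

/-- The Cauchy-Schwarz inequality for the fibres of a map. -/
theorem cs {ι : Type} (S : Finset ι) (f : ι → ℤ) :
    S.card ^ 2 ≤ (S.image f).card * ((S ×ˢ S).filter fun p : ι × ι => f p.1 = f p.2).card := by
  have h1 : S.card = ∑ b ∈ S.image f, (S.filter fun a => f a = b).card :=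
    Finset.card_eq_sum_card_image f S
  have h2 : ((S ×ˢ S).filter fun p : ι × ι => f p.1 = f p.2).card =
      ∑ b ∈ S.image f, (S.filter fun a => f a = b).card ^ 2 := by
    rw [Finset.card_eq_sum_card_fiberwise (f := fun p : ι × ι => f p.1) (t := S.image f)]
    · refine Finset.sum_congr rfl fun b _ => ?_
      rw [pow_two, ← Finset.card_product]
      congr 1
      ext p
      simp only [mem_filter, mem_product]
      constructor
      · rintro ⟨⟨⟨h1, h2⟩, h3⟩, h4⟩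
        exact ⟨⟨h1, h4⟩, h2, h3 ▸ h4⟩
      · rintro ⟨⟨h1, h4⟩, h2, h5⟩
        exact ⟨⟨⟨h1, h2⟩, h4.trans h5.symm⟩, h4⟩
    · intro p hp
      have h3 := (mem_product.1 (mem_filter.1 hp).1).1
      exact mem_image_of_mem f h3
  rw [h2]
  calc S.card ^ 2 = (∑ b ∈ S.image f, (S.filter fun a => f a = b).card) ^ 2 := by rw [← h1]
    _ ≤ _ := sq_sum_le_card_mul_sum_sq

theorem card_box (l P : ℕ) : (box l P).card = (P + 1) ^ l := by
  unfold Pool.Agent.V5helper51.MT.box blk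
  rw [Fintype.card_piFinset]
  have h : ∀ i : Fin l, (Icc (2 * ((i : ℕ) + 1) * P) ((2 * (i : ℕ) + 3) * P)).card = P + 1 := by
    intro i
    rw [Nat.card_Icc]
    have h1 : (2 * (i : ℕ) + 3) * P = 2 * ((i : ℕ) + 1) * P + P := by ring
    omega
  rw [Finset.prod_congr rfl fun i _ => h i]
  simp

theorem t_CS (hG : Pool.Agent.V5helper50.SP.S_GRW) : Pool.Agent.V5helper50.SC.S_CS := by
  classical
  rintro k q l s hk hq hl hlk α K hK ⟨m₀, hm₀⟩
  obtain ⟨⟨x₀, hx₀, hgr, -⟩, -⟩ := hG k q hk hq α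
  set B : ℝ := 2 * l * (2 * l + 1) ^ k with hB
  have hl1 : (1 : ℝ) ≤ l := by exact_mod_cast hl
  have hB18 : (18 : ℝ) ≤ B := by
    have h1 : (9 : ℝ) ≤ (2 * l + 1) ^ k := by
      calc (9 : ℝ) = 3 ^ 2 := by norm_num
        _ ≤ 3 ^ k := pow_le_pow_right₀ (by norm_num) hk
        _ ≤ (2 * l + 1) ^ k := pow_le_pow_left₀ (by norm_num) (by linarith) k
    rw [hB]
    nlinarith
  have hB0 : 0 < B := by linarith
  refine ⟨1 / (2 * (B * 2 ^ l * K)), by positivity, B * (2 ^ k) ^ (m₀ + x₀ + 1), fun x hx => ?_⟩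
  have h2k : (1 : ℝ) < 2 ^ k := one_lt_pow₀ (by norm_num) (by omega)
  have hxB : (2 ^ k : ℝ) ^ (m₀ + x₀ + 1) ≤ x / B := by
    rw [le_div_iff₀ hB0]
    linarith [mul_comm B ((2 ^ k : ℝ) ^ (m₀ + x₀ + 1))]
  obtain ⟨m, hm1, hm2⟩ := exists_nat_pow_near ((one_le_pow₀ h2k.le).trans hxB) h2k
  have hmM : m₀ + x₀ < m := by
    have h1 := (pow_lt_pow_iff_right₀ h2k).1 (hxB.trans_lt hm2)
    omega
  have hPx : x₀ ≤ 2 ^ m := by
    have := Nat.lt_two_pow_self (n := m)
    omega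
  have hE := hm₀ m (by omega)
  -- the values
  have hval : ∀ y ∈ box l (2 ^ m), 0 < ∑ i, a k q α (y i) ∧
      ((∑ i, a k q α (y i) : ℤ) : ℝ) ≤ x := by
    intro y hy
    have hy1 : ∀ i : Fin l, x₀ ≤ y i ∧ 1 ≤ y i ∧ (y i : ℝ) ≤ (2 * l + 1) * 2 ^ m := by
      intro i
      have h1 := Fintype.mem_piFinset.1 hy i
      unfold blk at h1
      rw [mem_Icc] at h1
      have h2 : 1 * 2 ^ m ≤ 2 * ((i : ℕ) + 1) * 2 ^ m := Nat.mul_le_mul_right _ (by omega)
      have h3 : (2 * (i : ℕ) + 3) * 2 ^ m ≤ (2 * l + 1) * 2 ^ m :=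
        Nat.mul_le_mul_right _ (by have := i.2; omega)
      have h4 : 1 ≤ 2 ^ m := Nat.one_le_two_pow
      refine ⟨by omega, by omega, ?_⟩
      exact_mod_cast h1.2.trans h3
    constructor
    · refine Finset.sum_pos (fun i _ => ?_) ⟨⟨0, by omega⟩, mem_univ _⟩
      have h1 := (hgr (y i) (hy1 i).1).1
      have h2 : (0 : ℝ) < (y i : ℝ) ^ k / 2 := by
        have : (1 : ℝ) ≤ y i := by exact_mod_cast (hy1 i).2.1
        positivity
      exact_mod_cast h2.trans_le h1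
    · push_cast
      have h1 : ∀ i ∈ (univ : Finset (Fin l)), (a k q α (y i) : ℝ) ≤
          2 * ((2 * l + 1) * 2 ^ m) ^ k := fun i _ =>
        ((hgr (y i) (hy1 i).1).2).trans (mul_le_mul_of_nonneg_left
          (pow_le_pow_left₀ (Nat.cast_nonneg _) (hy1 i).2.2 k) (by norm_num))
      refine (Finset.sum_le_card_nsmul _ _ _ h1).trans ?_
      rw [card_univ, Fintype.card_fin, nsmul_eq_mul]
      have h2 : (l : ℝ) * (2 * ((2 * l + 1) * 2 ^ m) ^ k) = (2 ^ k) ^ m * B := by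
        rw [hB, mul_pow, ← pow_mul, ← pow_mul, mul_comm m k]
        ring
      rw [h2]
      exact (le_div_iff₀ hB0).1 hm1
  -- the number of values
  set T := (box l (2 ^ m)).image fun y => ∑ i, a k q α (y i) with hT
  have hnum : T.card ≤ Pool.Agent.V5helper50.SC.num k q l α x := by
    unfold Pool.Agent.V5helper50.SC.num
    have hfin : {n : ℕ | 1 ≤ n ∧ (n : ℝ) ≤ x ∧ ∃ y : Fin l → ℕ,
        ∑ i, a k q α (y i) = n}.Finite := by
      refine (Set.finite_Iic ⌊x⌋₊).subset fun n hn => ?_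
      exact Nat.le_floor hn.2.1
    have hinj : Set.InjOn Int.toNat (T : Set ℤ) := by
      intro u hu v hv huv
      obtain ⟨y, hy, rfl⟩ := mem_image.1 hu
      obtain ⟨z, hz, rfl⟩ := mem_image.1 hv
      have h1 := (hval y hy).1
      have h2 := (hval z hz).1
      omega
    rw [← card_image_of_injOn hinj, ← Set.ncard_coe_finset]
    refine Set.ncard_le_ncard (fun n hn => ?_) hfin
    obtain ⟨u, hu, rfl⟩ := mem_image.1 hn
    obtain ⟨y, hy, rfl⟩ := mem_image.1 hu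
    obtain ⟨h1, h2⟩ := hval y hy
    have h3 : ((∑ i, a k q α (y i)).toNat : ℤ) = ∑ i, a k q α (y i) := Int.toNat_of_nonneg h1.le
    refine ⟨by omega, ?_, y, h3.symm⟩
    have h4 : (((∑ i, a k q α (y i)).toNat : ℤ) : ℝ) = ((∑ i, a k q α (y i) : ℤ) : ℝ) := by
      rw [h3]
    rw [Int.cast_natCast] at h4
    rw [h4]
    exact h2
  have hcs := cs (box l (2 ^ m)) fun y => ∑ i, a k q α (y i)
  rw [card_box, ← hT] at hcs
  obtain ⟨N, hN⟩ : ∃ N, N = Pool.Agent.V5helper50.SC.num k q l α x := ⟨_, rfl⟩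
  rw [← hN] at hnum ⊢
  set P : ℝ := 2 ^ m with hP
  have hP0 : 0 < P := by positivity
  have hPl : 0 < P ^ l := by positivity
  have hkey : (P ^ l) ^ 2 ≤ N * (K * P ^ l * ((m : ℝ) + 1) ^ s) := by
    have h1 : (P ^ l) ^ 2 ≤ (((2 ^ m + 1) ^ l : ℕ) : ℝ) ^ 2 := by
      push_cast
      refine pow_le_pow_left₀ hPl.le (pow_le_pow_left₀ hP0.le (by rw [hP]; linarith) l) 2
    refine h1.trans ?_
    have h2 : (((((2 ^ m + 1) ^ l) ^ 2 : ℕ)) : ℝ) ≤ ((T.card * ((box l (2 ^ m) ×ˢ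
        box l (2 ^ m)).filter fun p : (Fin l → ℕ) × (Fin l → ℕ) =>
        ∑ i, a k q α (p.1 i) = ∑ i, a k q α (p.2 i)).card : ℕ) : ℝ) := by exact_mod_cast hcs
    rw [Nat.cast_pow] at h2
    refine h2.trans ?_
    rw [Nat.cast_mul]
    exact mul_le_mul (by exact_mod_cast hnum) hE (Nat.cast_nonneg _) (Nat.cast_nonneg _)
  have hkey2 : P ^ l ≤ N * (K * ((m : ℝ) + 1) ^ s) := by
    have h1 : P ^ l * P ^ l ≤ (N * (K * ((m : ℝ) + 1) ^ s)) * P ^ l := by
      calc P ^ l * P ^ l = (P ^ l) ^ 2 := (pow_two _).symm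
        _ ≤ _ := hkey
        _ = _ := by ring
    exact le_of_mul_le_mul_right h1 hPl
  -- the logarithm
  have hxle : P ^ k * B ≤ x := by
    have h1 := (le_div_iff₀ hB0).1 hm1
    rwa [← pow_mul, mul_comm k m, pow_mul] at h1
  have hxlt : x < B * (2 * P) ^ k := by
    have h1 := (div_lt_iff₀ hB0).1 hm2
    have h2 : ((2 : ℝ) ^ k) ^ (m + 1) * B = B * (2 * P) ^ k := by
      rw [hP, mul_comm _ B, ← pow_succ', ← pow_mul, ← pow_mul, mul_comm k (m + 1)]
    rwa [h2] at h1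
  have hx0 : 0 < x := lt_of_lt_of_le (by positivity) hxle
  have hlog : (m : ℝ) + 1 ≤ Real.log x := by
    have h1 : (2 : ℝ) ^ (2 * m) * 18 ≤ x := by
      refine le_trans (mul_le_mul ?_ hB18 (by norm_num) (by positivity)) hxle
      rw [hP, ← pow_mul]
      exact pow_le_pow_right₀ (by norm_num) (by nlinarith)
    have h2 : Real.log ((2 : ℝ) ^ (2 * m) * 18) ≤ Real.log x :=
      Real.log_le_log (by positivity) h1
    rw [Real.log_mul (by positivity) (by norm_num), Real.log_pow] at h2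
    have h3 : (1 : ℝ) ≤ Real.log 18 := by
      rw [Real.le_log_iff_exp_le (by norm_num)]
      have := Real.exp_one_lt_d9
      linarith
    have h4 := Real.log_two_gt_d9
    push_cast at h2
    nlinarith [(Nat.cast_nonneg m : (0 : ℝ) ≤ m)]
  have hlog0 : 0 < Real.log x := lt_of_lt_of_le (by positivity) hlog
  have hkey3 : P ^ l ≤ N * (K * Real.log x ^ s) := by
    refine hkey2.trans (mul_le_mul_of_nonneg_left (mul_le_mul_of_nonneg_left
      (pow_le_pow_left₀ (by positivity) hlog s) hK.le) (Nat.cast_nonneg _))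
  -- the power
  have hk0 : (0 : ℝ) < k := by exact_mod_cast (by omega : 0 < k)
  have hexp : (l : ℝ) / k ≤ 1 := by
    rw [div_le_one hk0]
    exact_mod_cast hlk
  have hpow : x ^ ((l : ℝ) / k) ≤ B * 2 ^ l * P ^ l := by
    calc x ^ ((l : ℝ) / k) ≤ (B * (2 * P) ^ k) ^ ((l : ℝ) / k) :=
          Real.rpow_le_rpow hx0.le hxlt.le (by positivity)
      _ = B ^ ((l : ℝ) / k) * ((2 * P) ^ k) ^ ((l : ℝ) / k) :=
          Real.mul_rpow hB0.le (by positivity)
      _ = B ^ ((l : ℝ) / k) * (2 * P) ^ l := by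
          rw [← Real.rpow_natCast (2 * P) k, ← Real.rpow_mul (by positivity),
            mul_div_cancel₀ _ hk0.ne', Real.rpow_natCast]
      _ ≤ B ^ (1 : ℝ) * (2 * P) ^ l := mul_le_mul_of_nonneg_right
          (Real.rpow_le_rpow_of_exponent_le (by linarith) hexp) (by positivity)
      _ = B * 2 ^ l * P ^ l := by rw [Real.rpow_one, mul_pow]; ring
  have hxp : 0 < x ^ ((l : ℝ) / k) := Real.rpow_pos_of_pos hx0 _
  have hfin : x ^ ((l : ℝ) / k) ≤ N * ((B * 2 ^ l * K) * Real.log x ^ s) := by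
    calc x ^ ((l : ℝ) / k) ≤ B * 2 ^ l * P ^ l := hpow
      _ ≤ B * 2 ^ l * (N * (K * Real.log x ^ s)) :=
          mul_le_mul_of_nonneg_left hkey3 (by positivity)
      _ = _ := by ring
  have hD : 0 < B * 2 ^ l * K := by positivity
  have hLs : 0 < Real.log x ^ s := by positivity
  rw [div_lt_iff₀ hLs, one_div, inv_mul_lt_iff₀ (by positivity)]
  calc x ^ ((l : ℝ) / k) < 2 * x ^ ((l : ℝ) / k) := by linarith
    _ ≤ 2 * (N * ((B * 2 ^ l * K) * Real.log x ^ s)) := by linarith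
    _ = _ := by ring

end Pool.Agent.V5helper55.SC
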